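import Pool.Agent.W957.MF.Stm

set_option autoImplicit false

namespace W237.MF

open Finset Pool.Agent.W957.MF

theorem exists_list (S : Finset ℕ) (u : ℕ → ℤ) (hu : Set.InjOn u (S : Set ℕ)) :
    ∃ e : Fin S.card ≃ S, ∀ i j, i < j ↔ u (e i) < u (e j) := by
  have hcard : (S.image u).card = S.card := Finset.card_image_of_injOn hu
  let e0 : Fin S.card ≃o (S.image u) := (S.image u).orderIsoOfFin hcard
  let F : S → (S.image u) := fun s => ⟨u s, Finset.mem_image_of_mem u s.2⟩
  have hF : Function.Bijective F := by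
    constructor
    · intro a b hab
      exact Subtype.ext (hu a.2 b.2 (congrArg Subtype.val hab))
    · rintro ⟨t, ht⟩
      obtain ⟨s, hs, rfl⟩ := Finset.mem_image.1 ht
      exact ⟨⟨s, hs⟩, rfl⟩
  let E : S ≃ (S.image u) := Equiv.ofBijective F hF
  refine ⟨e0.toEquiv.trans E.symm, fun i j => ?_⟩
  have key : ∀ i, u ((e0.toEquiv.trans E.symm) i) = ((e0 i : S.image u) : ℤ) := by
    intro i
    have : E (E.symm (e0 i)) = e0 i := Equiv.apply_symm_apply _ _
    exact congrArg Subtype.val this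
  rw [key, key, ← e0.lt_iff_lt]
  exact Iff.rfl

theorem sm_id {m : ℕ} (f : Fin m → Fin m) (hf : StrictMono f) : f = id := by
  rw [← hf.range_inj strictMono_id]
  have : Function.Surjective f := Finite.surjective_of_injective hf.injective
  rw [this.range_eq, Set.range_id]

theorem perm_eq {m : ℕ} (σ τ : Equiv.Perm (Fin m)) (h : ∀ i j, σ i < σ j ↔ τ i < τ j) : σ = τ := by
  have h1 : StrictMono (fun i => σ (τ.symm i)) := by
    intro i j hij
    show σ (τ.symm i) < σ (τ.symm j)
    rw [h, Equiv.apply_symm_apply, Equiv.apply_symm_apply]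
    exact hij
  have h2 := sm_id _ h1
  ext i
  have h3 := congrFun h2 (τ i)
  simp only [Equiv.symm_apply_apply, id] at h3
  rw [h3]

theorem t_PAT : S_PAT := by
  intro z S hgp
  obtain ⟨ex, hex⟩ := exists_list S (z true) (hgp true)
  obtain ⟨ey, hey⟩ := exists_list S (z false) (hgp false)
  set σ : Equiv.Perm (Fin S.card) := ex.trans ey.symm with hσ
  have hσlt : ∀ i j, σ i < σ j ↔ z false (ex i) < z false (ex j) := by
    intro i j
    rw [hey]
    simp [hσ]
  refine ⟨σ, ⟨fun i => ex i, fun i => (ex i).2, fun i j => hex i j, fun i j => hσlt i j⟩, ?_, ?_⟩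
  · rintro σ' ⟨f, hfS, hfx, hfy⟩
    have hsm : StrictMono (fun i => ex.symm ⟨f i, hfS i⟩) := by
      intro i j hij
      show ex.symm ⟨f i, hfS i⟩ < ex.symm ⟨f j, hfS j⟩
      rw [hex]
      simpa using (hfx i j).1 hij
    have hid := sm_id _ hsm
    have hf : ∀ i, f i = ex i := by
      intro i
      have h1 : ex.symm ⟨f i, hfS i⟩ = i := congrFun hid i
      have h2 := congrArg ex h1
      rw [Equiv.apply_symm_apply] at h2
      exact congrArg Subtype.val h2
    apply perm_eq
    intro i j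
    rw [hfy, hσlt, hf, hf]
  · intro k τ
    constructor
    · rintro ⟨f, hfS, hfx, hfy⟩
      refine ⟨fun i => ex.symm ⟨f i, hfS i⟩, ?_, ?_⟩
      · intro i j hij
        show ex.symm ⟨f i, hfS i⟩ < ex.symm ⟨f j, hfS j⟩
        rw [hex]
        simpa using (hfx i j).1 hij
      · intro i j
        rw [hfy, hσlt]
        simp
    · rintro ⟨f, hf, hfp⟩
      refine ⟨fun i => ex (f i), fun i => (ex (f i)).2, ?_, ?_⟩
      · intro i j
        rw [← hex, hf.lt_iff_lt]
      · intro i j
        rw [hfp, hσlt]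

theorem contained_self_iff {m : ℕ} (σ ρ : Equiv.Perm (Fin m)) : Contained σ ρ ↔ σ = ρ := by
  constructor
  · rintro ⟨f, hf, hfp⟩
    have := sm_id f hf
    subst this
    exact perm_eq _ _ hfp
  · rintro rfl
    exact ⟨id, strictMono_id, fun i j => Iff.rfl⟩

theorem contained_le {k m : ℕ} (σ : Equiv.Perm (Fin k)) (ρ : Equiv.Perm (Fin m))
    (h : Contained σ ρ) : k ≤ m := by
  obtain ⟨f, hf, _⟩ := h
  have := Fintype.card_le_of_injective f hf.injective
  simpa using this

open Classical in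
/-- the inner sum -/
noncomputable def hsum {m : ℕ} (ρ : Equiv.Perm (Fin m)) (k : ℕ) : ℤ :=
  ∑ τ : Equiv.Perm (Fin k), if 1 ≤ k ∧ Contained τ ρ then mu k τ else 0

theorem hsum_zero {m : ℕ} (ρ : Equiv.Perm (Fin m)) : hsum ρ 0 = 0 := by
  unfold hsum
  refine Finset.sum_eq_zero fun τ _ => ?_
  rw [if_neg]
  rintro ⟨h, _⟩
  omega

theorem hsum_gt {m : ℕ} (ρ : Equiv.Perm (Fin m)) (k : ℕ) (hk : m < k) : hsum ρ k = 0 := by
  unfold hsum
  refine Finset.sum_eq_zero fun τ _ => ?_
  rw [if_neg]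
  rintro ⟨_, h⟩
  have := contained_le _ _ h
  omega

theorem hsum_self {m : ℕ} (hm : 1 ≤ m) (ρ : Equiv.Perm (Fin m)) : hsum ρ m = mu m ρ := by
  unfold hsum
  rw [Finset.sum_eq_single ρ]
  · rw [if_pos ⟨hm, (contained_self_iff _ _).2 rfl⟩]
  · intro τ _ hne
    rw [if_neg]
    rintro ⟨_, h⟩
    exact hne ((contained_self_iff _ _).1 h)
  · intro h
    exact absurd (Finset.mem_univ _) h

theorem mu_eq {m : ℕ} (hm : m ≠ 1) (ρ : Equiv.Perm (Fin m)) :
    mu m ρ = - ∑ k ∈ Finset.range m, hsum ρ k := by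
  rw [mu, if_neg hm]
  congr 1
  rw [← Fin.sum_univ_eq_sum_range]
  rfl

theorem mu_one (ρ : Equiv.Perm (Fin 1)) : mu 1 ρ = 1 := by
  rw [mu, if_pos rfl]

theorem total {m : ℕ} (ρ : Equiv.Perm (Fin m)) (N : ℕ) (hN : m ≤ N) :
    ∑ k ∈ Icc 1 N, hsum ρ k = if m = 1 then 1 else 0 := by
  have h1 : ∑ k ∈ Icc 1 N, hsum ρ k = ∑ k ∈ Finset.range (N + 1), hsum ρ k := by
    apply Finset.sum_subset
    · intro k hk
      rw [Finset.mem_Icc] at hk
      rw [Finset.mem_range]
      omega
    · intro k hk hk'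
      have : k = 0 := by
        rw [Finset.mem_Icc] at hk'
        rw [Finset.mem_range] at hk
        omega
      rw [this, hsum_zero]
  have h2 : ∑ k ∈ Finset.range (N + 1), hsum ρ k = ∑ k ∈ Finset.range (m + 1), hsum ρ k := by
    symm
    apply Finset.sum_subset
    · intro k hk
      rw [Finset.mem_range] at *
      omega
    · intro k _ hk'
      apply hsum_gt
      rw [Finset.mem_range] at hk'
      omega
  rw [h1, h2, Finset.sum_range_succ]
  by_cases hm0 : m = 0
  · subst hm0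
    simp [hsum_zero]
  · rw [hsum_self (by omega)]
    by_cases hm1 : m = 1
    · subst hm1
      rw [mu_one]
      simp [hsum_zero]
    · rw [mu_eq hm1, if_neg hm1]
      ring

open Classical in
theorem t_W (h : S_PAT) : S_W := by
  intro z S hgp
  have hinner : ∀ T ∈ S.powerset, (∑ k ∈ Icc 1 S.card, ∑ σ : Equiv.Perm (Fin k),
      if Occ z T σ then mu k σ else 0) = if T.card = 1 then 1 else 0 := by
    intro T hT
    rw [Finset.mem_powerset] at hT
    have hgpT : GP z T := fun b => (hgp b).mono (by exact_mod_cast hT)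
    obtain ⟨ρ, _, _, hρ⟩ := h z T hgpT
    rw [← total ρ S.card (Finset.card_le_card hT)]
    refine Finset.sum_congr rfl fun k hk => ?_
    unfold hsum
    refine Finset.sum_congr rfl fun σ _ => ?_
    rw [Finset.mem_Icc] at hk
    by_cases hc : Occ z T σ
    · rw [if_pos hc, if_pos ⟨hk.1, (hρ k σ).1 hc⟩]
    · rw [if_neg hc, if_neg]
      rintro ⟨_, h2⟩
      exact hc ((hρ k σ).2 h2)
  have e1 : ∑ k ∈ Icc 1 S.card, ∑ σ : Equiv.Perm (Fin k), mu k σ * g z S σ =
      ∑ T ∈ S.powerset, (-1 : ℤ) ^ T.card * (∑ k ∈ Icc 1 S.card, ∑ σ : Equiv.Perm (Fin k),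
      if Occ z T σ then mu k σ else 0) := by
    have : ∀ k : ℕ, ∀ σ : Equiv.Perm (Fin k), mu k σ * g z S σ =
        ∑ T ∈ S.powerset, (-1 : ℤ) ^ T.card * (if Occ z T σ then mu k σ else 0) := by
      intro k σ
      unfold g
      rw [Finset.sum_filter, Finset.mul_sum]
      refine Finset.sum_congr rfl fun T _ => ?_
      split_ifs <;> ring
    simp only [this]
    have h3 : ∀ k ∈ Icc 1 S.card, (∑ σ : Equiv.Perm (Fin k), ∑ T ∈ S.powerset,
        (-1 : ℤ) ^ T.card * (if Occ z T σ then mu k σ else 0)) =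
        ∑ T ∈ S.powerset, ∑ σ : Equiv.Perm (Fin k),
        (-1 : ℤ) ^ T.card * (if Occ z T σ then mu k σ else 0) := fun k _ => Finset.sum_comm
    rw [Finset.sum_congr rfl h3, Finset.sum_comm]
    refine Finset.sum_congr rfl fun T _ => ?_
    rw [Finset.mul_sum]
    refine Finset.sum_congr rfl fun k _ => ?_
    rw [Finset.mul_sum]
  rw [e1]
  have e2 : ∑ T ∈ S.powerset, (-1 : ℤ) ^ T.card * (∑ k ∈ Icc 1 S.card, ∑ σ : Equiv.Perm (Fin k),
      if Occ z T σ then mu k σ else 0) = ∑ T ∈ S.powerset, if T.card = 1 then (-1 : ℤ) else 0 := by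
    refine Finset.sum_congr rfl fun T hT => ?_
    rw [hinner T hT]
    split_ifs with h1
    · rw [h1]; norm_num
    · ring
  rw [e2, ← Finset.sum_filter, Finset.sum_const]
  have e3 : S.powerset.filter (fun T => T.card = 1) = S.powersetCard 1 := by
    rw [Finset.powersetCard_eq_filter]
  rw [e3, Finset.card_powersetCard, Nat.choose_one_right]
  simp

end W237.MF
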