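import Pool.Agent.W957.MF.Stm2

set_option autoImplicit false

namespace W237.MF.Pinf

open Finset Pool.Agent.W957.MF

theorem t_PINF : S_PINF := by
  intro z n Q e hP j hj hjn
  have f1 := hP.far (j + 1) (j - 1) (e (j + 1)) (by omega) hjn (by omega) (by omega)
  have f2 := hP.far (j + 1) (j - 2) (e (j + 1)) (by omega) hjn (by omega) (by omega)
  have n1 := hP.nearF (j + 1) (by omega) hjn
  have g1 := hP.far j (j - 2) (e (j + 1)) (by omega) (by omega) (by omega) (by omega)
  have n2 := hP.nearF j (by omega) (by omega)
  rw [show j + 1 - 1 = j by omega] at n1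
  cases h1 : e (j + 1) <;> cases h2 : e j <;> rw [h1] at f1 f2 n1 g1 <;> rw [h2] at n2
  · exfalso
    cases h3 : Q (j + 1) false <;> cases h4 : Q j false <;>
      simp only [h3, h4, sl, Bool.not_true, Bool.not_false] at f1 f2 n1 g1 n2 <;> omega
  · refine ⟨rfl, ?_⟩
    cases h3 : Q (j + 1) false <;> cases h4 : Q j false <;>
      simp only [h3, h4, sl, Bool.not_true, Bool.not_false] at f1 f2 n1 g1 n2 ⊢ <;> omega
  · refine ⟨rfl, ?_⟩
    cases h3 : Q (j + 1) true <;> cases h4 : Q j true <;>
      simp only [h3, h4, sl, Bool.not_true, Bool.not_false] at f1 f2 n1 g1 n2 ⊢ <;> omega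
  · exfalso
    cases h3 : Q (j + 1) true <;> cases h4 : Q j true <;>
      simp only [h3, h4, sl, Bool.not_true, Bool.not_false] at f1 f2 n1 g1 n2 <;> omega

/-- the comparison of two points in terms of the data of the later one -/
theorem cmp {z : Conf} {n : ℕ} {Q : ℕ → Bool → Bool} {e : ℕ → Bool} (hP : Pin z n Q e)
    (i j : ℕ) (b : Bool) (hi : 1 ≤ i) (hij : i < j) (hj : 3 ≤ j) (hjn : j ≤ n) :
    (z b i < z b j ↔ (if i + 1 = j ∧ b = e j then Q j b = false else Q j b = true)) ∧
    (z b j < z b i ↔ (if i + 1 = j ∧ b = e j then Q j b = true else Q j b = false)) := by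
  by_cases h1 : i + 1 = j
  · have hi' : j - 1 = i := by omega
    by_cases h2 : b = e j
    · have h3 := hP.nearF j hj hjn
      rw [hi', ← h2] at h3
      rw [if_pos ⟨h1, h2⟩, if_pos ⟨h1, h2⟩]
      cases h4 : Q j b <;> simp only [h4, sl, Bool.not_true, Bool.not_false] at h3 <;>
        simp <;> omega
    · have h3 := hP.nearE j hj hjn
      have h5 : (!e j) = b := by
        cases b <;> cases h6 : e j <;> simp_all
      rw [hi', h5] at h3
      rw [if_neg (fun h => h2 h.2), if_neg (fun h => h2 h.2)]
      cases h4 : Q j b <;> simp only [h4, sl] at h3 <;>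
        simp <;> omega
  · have h3 := hP.far j i b hj hjn hi (by omega)
    rw [if_neg (fun h => h1 h.1), if_neg (fun h => h1 h.1)]
    cases h4 : Q j b <;> simp only [h4, sl] at h3 <;>
        simp <;> omega

theorem t_CODE : S_CODE := by
  intro z n Q e hP k σ s s' hk hs hs' hsn hsn' hdata hR
  obtain ⟨hc, f, hf, hfx, hfy⟩ := hR
  -- comparison of the shifted points
  have key1 : ∀ (b : Bool) (p q : ℕ), p < q → q < k →
      (z b (s + p) < z b (s + q) ↔ z b (s' + p) < z b (s' + q)) ∧
      (z b (s + q) < z b (s + p) ↔ z b (s' + q) < z b (s' + p)) := by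
    intro b p q hpq hq
    have h1 := cmp hP (s + p) (s + q) b (by omega) (by omega) (by omega) (by omega)
    have h2 := cmp hP (s' + p) (s' + q) b (by omega) (by omega) (by omega) (by omega)
    obtain ⟨hQ, he⟩ := hdata q (by omega) hq
    rw [hQ, he] at h1
    rw [h1.1, h1.2, h2.1, h2.2]
    have e1 : s + p + 1 = s + q ↔ s' + p + 1 = s' + q := by omega
    simp only [e1, and_self]
  have key : ∀ (b : Bool) (p q : ℕ), p < k → q < k →
      (z b (s + p) < z b (s + q) ↔ z b (s' + p) < z b (s' + q)) := by
    intro b p q hp hq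
    rcases lt_trichotomy p q with h | h | h
    · exact (key1 b p q h hq).1
    · subst h
      exact ⟨fun h => absurd h (lt_irrefl _), fun h => absurd h (lt_irrefl _)⟩
    · exact (key1 b q p h hp).2
  refine ⟨by rw [Nat.card_Icc]; omega, fun u => f u - s + s', ?_, ?_, ?_⟩
  · intro u
    have := hf u
    show f u - s + s' ∈ Icc s' (s' + k - 1)
    rw [Finset.mem_Icc] at this ⊢
    omega
  · intro u v
    have h1 := hf u
    have h2 := hf v
    rw [Finset.mem_Icc] at h1 h2
    have := key true (f u - s) (f v - s) (by omega) (by omega)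
    rw [hfx]
    rw [show s + (f u - s) = f u by omega, show s + (f v - s) = f v by omega] at this
    rw [this, add_comm s', add_comm s']
  · intro u v
    have h1 := hf u
    have h2 := hf v
    rw [Finset.mem_Icc] at h1 h2
    have := key false (f u - s) (f v - s) (by omega) (by omega)
    rw [hfy]
    rw [show s + (f u - s) = f u by omega, show s + (f v - s) = f v by omega] at this
    rw [this, add_comm s', add_comm s']

/-- rank of a point -/
def rk (z : Conf) (b : Bool) (A : Finset ℕ) (p : ℕ) : ℕ := (A.filter (fun q => z b q < z b p)).card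

theorem rk_eq {z : Conf} {A : Finset ℕ} {k : ℕ} {σ : Equiv.Perm (Fin k)} (h : Real z A σ)
    (p : ℕ) (hp : p ∈ A) : ∃ u : Fin k, rk z true A p = u ∧ rk z false A p = σ u := by
  obtain ⟨hc, f, hf, hfx, hfy⟩ := h
  have hinj : Function.Injective f := by
    intro u v huv
    by_contra hne
    rcases lt_or_gt_of_ne hne with h | h
    · have := (hfx u v).1 h
      rw [huv] at this
      exact lt_irrefl _ this
    · have := (hfx v u).1 h
      rw [huv] at this
      exact lt_irrefl _ this
  have himg : Finset.univ.image f = A := by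
    apply Finset.eq_of_subset_of_card_le
    · intro x hx
      obtain ⟨u, _, rfl⟩ := Finset.mem_image.1 hx
      exact hf u
    · rw [Finset.card_image_of_injective _ hinj, hc, Finset.card_univ, Fintype.card_fin]
  obtain ⟨u, _, rfl⟩ := Finset.mem_image.1 (himg ▸ hp)
  refine ⟨u, ?_, ?_⟩
  · unfold rk
    have : A.filter (fun q => z true q < z true (f u)) = (Finset.univ.filter (fun v => v < u)).image f := by
      rw [← himg, Finset.filter_image]
      congr 1
      refine Finset.filter_congr fun v _ => ?_
      rw [← hfx]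
    rw [this, Finset.card_image_of_injective _ hinj]
    have h2 : (Finset.univ.filter (fun v => v < u)) = Finset.Iio u := by
      ext v; simp
    rw [h2, Fin.card_Iio]
  · unfold rk
    have : A.filter (fun q => z false q < z false (f u)) =
        (Finset.univ.filter (fun v => σ v < σ u)).image f := by
      rw [← himg, Finset.filter_image]
      congr 1
      refine Finset.filter_congr fun v _ => ?_
      rw [← hfy]
    rw [this, Finset.card_image_of_injective _ hinj]
    have h2 : (Finset.univ.filter (fun v => σ v < σ u)) = (Finset.Iio (σ u)).map σ.symm.toEmbedding := by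
      ext v
      simp only [Finset.mem_filter, Finset.mem_univ, true_and, Finset.mem_map, Finset.mem_Iio,
        Equiv.coe_toEmbedding]
      constructor
      · intro h
        exact ⟨σ v, h, by simp⟩
      · rintro ⟨w, hw, rfl⟩
        simpa using hw
    rw [h2, Finset.card_map, Fin.card_Iio]

theorem rk_iff {z : Conf} {A B : Finset ℕ} {k : ℕ} {σ : Equiv.Perm (Fin k)} (hA : Real z A σ)
    (hB : Real z B σ) (p p' : ℕ) (hp : p ∈ A) (hp' : p' ∈ B) :
    rk z true A p = rk z true B p' ↔ rk z false A p = rk z false B p' := by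
  obtain ⟨u, h1, h2⟩ := rk_eq hA p hp
  obtain ⟨v, h3, h4⟩ := rk_eq hB p' hp'
  rw [h1, h2, h3, h4]
  constructor
  · intro h
    rw [Fin.ext h]
  · intro h
    have := σ.injective (Fin.ext h)
    rw [this]

theorem rk_insert {z : Conf} {b : Bool} {C : Finset ℕ} {a i : ℕ} (ha : a ∉ C) :
    rk z b (insert a C) i = rk z b C i + (if z b a < z b i then 1 else 0) := by
  unfold rk
  rw [Finset.filter_insert]
  split_ifs with h
  · rw [Finset.card_insert_of_notMem]
    intro h2
    exact ha (Finset.mem_filter.1 h2).1
  · rfl

theorem t_SWAP : S_SWAP := by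
  intro z n Q e hP k σ i j a hi hij hjn ha hai hA hB
  have hBe : Icc (i - 1) j = insert (i - 1) (Icc i j) := by
    ext x
    simp only [Finset.mem_Icc, Finset.mem_insert]
    omega
  rw [hBe] at hB
  have ha' : a ∉ Icc i j := by rw [Finset.mem_Icc]; omega
  have hi' : i - 1 ∉ Icc i j := by rw [Finset.mem_Icc]; omega
  have hiff := rk_iff hA hB i i (by simp [hij]) (by simp [hij])
  rw [rk_insert ha', rk_insert hi', rk_insert ha', rk_insert hi'] at hiff
  have c1 := fun b => (cmp hP a i b ha (by omega) (by omega) (by omega)).1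
  have c2 := fun b => (cmp hP (i - 1) i b (by omega) (by omega) (by omega) (by omega)).1
  have hne : ¬ (a + 1 = i) := by omega
  have he' : i - 1 + 1 = i := by omega
  simp only [hne, he', false_and, true_and, if_false] at c1 c2
  simp only [c1, c2] at hiff
  cases h1 : e i <;> cases h2 : Q i true <;> cases h3 : Q i false <;> simp [h1, h2, h3] at hiff

end W237.MF.Pinf
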