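import Pool.Agent.W957.MF.Stm

set_option autoImplicit false

namespace W237.MF.Sym

open Finset Pool.Agent.W957.MF

/-- a family of bijections compatible with containment preserves the Moebius function -/
theorem mu_inv (Φ : ∀ n, Equiv.Perm (Fin n) ≃ Equiv.Perm (Fin n))
    (hΦ : ∀ (k n : ℕ) (σ : Equiv.Perm (Fin k)) (π : Equiv.Perm (Fin n)),
      Contained (Φ k σ) (Φ n π) ↔ Contained σ π) :
    ∀ (n : ℕ) (π : Equiv.Perm (Fin n)), mu n (Φ n π) = mu n π := by
  intro n
  induction n using Nat.strong_induction_on with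
  | _ n ih =>
    intro π
    rw [mu, mu]
    split_ifs with h
    · rfl
    · congr 1
      refine Finset.sum_congr rfl fun k _ => ?_
      rw [← (Φ k).sum_comp]
      refine Finset.sum_congr rfl fun τ _ => ?_
      rw [ih k k.2 τ]
      have h2 := hΦ k n τ π
      by_cases hc : 1 ≤ (k : ℕ) ∧ Contained τ π
      · rw [if_pos hc, if_pos ⟨hc.1, h2.2 hc.2⟩]
      · rw [if_neg hc, if_neg (fun h => hc ⟨h.1, h2.1 h.2⟩)]

theorem cont_symm {k n : ℕ} (σ : Equiv.Perm (Fin k)) (π : Equiv.Perm (Fin n))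
    (h : Contained σ π) : Contained σ.symm π.symm := by
  obtain ⟨f, hf, hp⟩ := h
  refine ⟨fun i => π (f (σ.symm i)), ?_, ?_⟩
  · intro i j hij
    show π (f (σ.symm i)) < π (f (σ.symm j))
    rw [← hp, Equiv.apply_symm_apply, Equiv.apply_symm_apply]
    exact hij
  · intro i j
    rw [Equiv.symm_apply_apply, Equiv.symm_apply_apply, hf.lt_iff_lt]

theorem cont_rev {k n : ℕ} (σ : Equiv.Perm (Fin k)) (π : Equiv.Perm (Fin n))
    (h : Contained σ π) : Contained (Fin.revPerm.trans σ) (Fin.revPerm.trans π) := by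
  obtain ⟨f, hf, hp⟩ := h
  refine ⟨fun i => (f i.rev).rev, ?_, ?_⟩
  · intro i j hij
    show (f i.rev).rev < (f j.rev).rev
    rw [Fin.rev_lt_rev]
    exact hf (Fin.rev_lt_rev.2 hij)
  · intro i j
    simp only [Equiv.trans_apply, Fin.revPerm_apply, Fin.rev_rev]
    exact hp _ _

theorem cont_compl {k n : ℕ} (σ : Equiv.Perm (Fin k)) (π : Equiv.Perm (Fin n))
    (h : Contained σ π) : Contained (σ.trans Fin.revPerm) (π.trans Fin.revPerm) := by
  obtain ⟨f, hf, hp⟩ := h
  refine ⟨f, hf, fun i j => ?_⟩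
  simp only [Equiv.trans_apply, Fin.revPerm_apply, Fin.rev_lt_rev]
  exact hp _ _

theorem rev_rev' {n : ℕ} (π : Equiv.Perm (Fin n)) :
    Fin.revPerm.trans (Fin.revPerm.trans π) = π := by
  ext i; simp

theorem compl_compl' {n : ℕ} (π : Equiv.Perm (Fin n)) :
    (π.trans Fin.revPerm).trans Fin.revPerm = π := by
  ext i; simp

theorem mu_symm {n : ℕ} (π : Equiv.Perm (Fin n)) : mu n π.symm = mu n π := by
  refine mu_inv (fun n => ⟨Equiv.symm, Equiv.symm, fun π => Equiv.symm_symm π,
    fun π => Equiv.symm_symm π⟩) ?_ n π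
  intro k n σ π
  refine ⟨fun h => ?_, cont_symm σ π⟩
  have := cont_symm _ _ h
  exact this

theorem mu_rev {n : ℕ} (π : Equiv.Perm (Fin n)) : mu n (Fin.revPerm.trans π) = mu n π := by
  refine mu_inv (fun n => ⟨fun π => Fin.revPerm.trans π, fun π => Fin.revPerm.trans π,
    fun π => rev_rev' π, fun π => rev_rev' π⟩) ?_ n π
  intro k n σ π
  refine ⟨fun h => ?_, cont_rev σ π⟩
  have := cont_rev _ _ h
  simp only [Equiv.coe_fn_mk, rev_rev'] at this
  exact this

theorem mu_compl {n : ℕ} (π : Equiv.Perm (Fin n)) : mu n (π.trans Fin.revPerm) = mu n π := by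
  refine mu_inv (fun n => ⟨fun π => π.trans Fin.revPerm, fun π => π.trans Fin.revPerm,
    fun π => compl_compl' π, fun π => compl_compl' π⟩) ?_ n π
  intro k n σ π
  refine ⟨fun h => ?_, cont_compl σ π⟩
  have := cont_compl _ _ h
  simp only [Equiv.coe_fn_mk, compl_compl'] at this
  exact this

/-- the relation used for the composition of symmetries -/
def Rel (z z' : Conf) : Prop := ∀ (S : Finset ℕ) (k : ℕ) (σ' : Equiv.Perm (Fin k)),
  Occ z' S σ' → ∃ σ : Equiv.Perm (Fin k), Occ z S σ ∧ mu k σ = mu k σ'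

theorem Rel.refl (z : Conf) : Rel z z := fun _ _ σ' h => ⟨σ', h, rfl⟩

theorem Rel.trans {z z' z'' : Conf} (h1 : Rel z z') (h2 : Rel z' z'') : Rel z z'' := by
  intro S k σ' h
  obtain ⟨σ1, h3, h4⟩ := h2 S k σ' h
  obtain ⟨σ2, h5, h6⟩ := h1 S k σ1 h3
  exact ⟨σ2, h5, h6.trans h4⟩

/-- change of signs -/
def negs (s1 s2 : Bool) (z : Conf) : Conf := fun b n => if b then sg s1 (z true n) else sg s2 (z false n)

/-- exchange of the axes -/
def swp (z : Conf) : Conf := fun b n => z (!b) n

theorem rel_swp (z : Conf) : Rel z (swp z) := by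
  intro S k σ' h
  obtain ⟨f, hfS, hx, hy⟩ := h
  refine ⟨σ'.symm, ⟨fun i => f (σ'.symm i), fun i => hfS _, ?_, ?_⟩, mu_symm σ'⟩
  · intro i j
    have := hy (σ'.symm i) (σ'.symm j)
    rw [Equiv.apply_symm_apply, Equiv.apply_symm_apply] at this
    exact this
  · intro i j
    exact hx (σ'.symm i) (σ'.symm j)

theorem rel_negx (s2 : Bool) (z : Conf) : Rel (negs true s2 z) (negs false s2 z) := by
  intro S k σ' h
  obtain ⟨f, hfS, hx, hy⟩ := h
  refine ⟨Fin.revPerm.trans σ', ⟨fun i => f i.rev, fun i => hfS _, ?_, ?_⟩, mu_rev σ'⟩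
  · intro i j
    have := hx j.rev i.rev
    rw [Fin.rev_lt_rev] at this
    rw [this]
    simp [negs, sg]
  · intro i j
    exact hy i.rev j.rev

theorem rel_negy (s1 : Bool) (z : Conf) : Rel (negs s1 true z) (negs s1 false z) := by
  intro S k σ' h
  obtain ⟨f, hfS, hx, hy⟩ := h
  refine ⟨σ'.trans Fin.revPerm, ⟨f, hfS, hx, ?_⟩, mu_compl σ'⟩
  intro i j
  simp only [Equiv.trans_apply, Fin.revPerm_apply, Fin.rev_lt_rev]
  rw [hy]
  simp [negs, sg]

theorem rel_negs (s1 s2 : Bool) (z : Conf) : Rel z (negs s1 s2 z) := by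
  have h0 : Rel z (negs true true z) := by
    have : negs true true z = z := by
      funext b n
      cases b <;> simp [negs, sg]
    rw [this]
    exact Rel.refl z
  cases s1 <;> cases s2
  · exact (h0.trans (rel_negx true z)).trans (rel_negy false z)
  · exact h0.trans (rel_negx true z)
  · exact h0.trans (rel_negy true z)
  · exact h0

theorem t_SYM : S_SYM := by
  intro a s1 s2 z S k σ' _ h
  have key : Rel z (Pool.Agent.W957.MF.symm a s1 s2 z) := by
    cases a
    · have : Pool.Agent.W957.MF.symm false s1 s2 z = negs s1 s2 (swp z) := by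
        funext b n
        cases b <;> simp [Pool.Agent.W957.MF.symm, negs, swp]
      rw [this]
      exact (rel_swp z).trans (rel_negs s1 s2 _)
    · have : Pool.Agent.W957.MF.symm true s1 s2 z = negs s1 s2 z := by
        funext b n
        cases b <;> simp [Pool.Agent.W957.MF.symm, negs]
      rw [this]
      exact rel_negs s1 s2 _
  exact key S k σ' h

end W237.MF.Sym
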